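import Mathlib
import Pool.Agent.H917R2.BP.Stm

/-!
The Schur multiplier `√(α β) / (α + β)` (task sch of project BP).
-/

set_option autoImplicit false

open scoped ComplexConjugate
open MeasureTheory

namespace Pool.Agent.H966R4.BP

theorem pos_exp_sum {κ : Type} [Fintype κ] (c l : κ → ℝ) (hl : ∀ k, 0 < l k)
    (h : ∀ t : ℝ, 0 < t → 0 ≤ ∑ k, c k * Real.exp (-(l k) * t)) : 0 ≤ ∑ k, c k / l k := by
  have h1 : ∀ k, ∫ t in Set.Ioi (0:ℝ), c k * Real.exp (-(l k) * t) = c k / l k := by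
    intro k
    rw [integral_const_mul, integral_exp_mul_Ioi (by linarith [hl k]) 0]
    have := hl k
    simp only [mul_zero, Real.exp_zero]
    field_simp
  have h2 : ∀ k, IntegrableOn (fun t => c k * Real.exp (-(l k) * t)) (Set.Ioi (0:ℝ)) :=
    fun k => (integrableOn_exp_mul_Ioi (by linarith [hl k]) 0).const_mul _
  have h3 : ∫ t in Set.Ioi (0:ℝ), ∑ k, c k * Real.exp (-(l k) * t) = ∑ k, c k / l k := by
    rw [integral_finsetSum _ (fun k _ => h2 k)]
    exact Finset.sum_congr rfl fun k _ => h1 k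
  rw [← h3]
  exact setIntegral_nonneg measurableSet_Ioi (fun t ht => h t ht)

theorem re_mul_le (a b : ℂ) : (conj a * b).re ≤ ‖a‖ ^ 2 + ‖b‖ ^ 2 / 4 := by
  have h1 : (conj a * b).re ≤ ‖a‖ * ‖b‖ := by
    refine (Complex.re_le_norm _).trans ?_
    rw [norm_mul, RCLike.norm_conj]
  nlinarith [sq_nonneg (‖a‖ - ‖b‖ / 2)]

theorem t_sch : H917R2.BP.S_sch := by
  intro d ι _ α β hα hβ W c hW η
  set m : Fin d → Fin d → ℝ := fun p q => Real.sqrt (α p * β q) / (α p + β q) with hm
  set z : ι → Fin d → ℂ := fun i p => ((Matrix.of fun p q =>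
      ((Real.sqrt (α p * β q) / (α p + β q) : ℝ) : ℂ) * W i p q).mulVec η) p with hz
  let r : ι → Fin d → Fin d → ℝ := fun i p q => (conj (z i p) * (W i p q * η q)).re
  -- the norm as a sum
  have hN : ∑ i, ∑ p, ‖z i p‖ ^ 2 = ∑ i, ∑ p, ∑ q, m p q * r i p q := by
    refine Finset.sum_congr rfl fun i _ => Finset.sum_congr rfl fun p _ => ?_
    have h1 : z i p = ∑ q, (m p q : ℂ) * (W i p q * η q) := by
      simp only [hz, hm, Matrix.mulVec, dotProduct, Matrix.of_apply]
      refine Finset.sum_congr rfl fun q _ => ?_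
      ring
    have h2 : ‖z i p‖ ^ 2 = (conj (z i p) * z i p).re := by
      rw [mul_comm, Complex.mul_conj, Complex.ofReal_re, Complex.normSq_eq_norm_sq]
    rw [h2]
    conv_lhs => rw [show conj (z i p) * z i p = conj (z i p) * ∑ q, (m p q : ℂ) * (W i p q * η q)
      from by rw [← h1]]
    rw [Finset.mul_sum, Complex.re_sum]
    refine Finset.sum_congr rfl fun q _ => ?_
    rw [show conj (z i p) * ((m p q : ℂ) * (W i p q * η q)) =
      (m p q : ℂ) * (conj (z i p) * (W i p q * η q)) by ring, Complex.re_ofReal_mul]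
  -- pointwise inequality
  have hpt : ∀ t : ℝ, 0 < t →
      ∑ i, ∑ p, ∑ q, (Real.sqrt (α p * β q) * r i p q) * Real.exp (-(α p + β q) * t) ≤
      ∑ i, ∑ p, (α p * ‖z i p‖ ^ 2) * Real.exp (-(2 * α p) * t) +
        ∑ q, (c / 4 * (β q * ‖η q‖ ^ 2)) * Real.exp (-(2 * β q) * t) := by
    intro t _
    let f : Fin d → ℝ := fun p => Real.sqrt (α p) * Real.exp (-(α p) * t)
    let g : Fin d → ℝ := fun q => Real.sqrt (β q) * Real.exp (-(β q) * t)
    let y : Fin d → ℂ := fun q => (g q : ℂ) * η q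
    have h1 := hW y
    have hf2 : ∀ p, f p ^ 2 = α p * Real.exp (-(2 * α p) * t) := by
      intro p
      show (Real.sqrt (α p) * Real.exp (-(α p) * t)) ^ 2 = _
      rw [mul_pow, Real.sq_sqrt (hα p).le, ← Real.exp_nat_mul]
      congr 2
      push_cast
      ring
    have hg2 : ∀ q, g q ^ 2 = β q * Real.exp (-(2 * β q) * t) := by
      intro q
      show (Real.sqrt (β q) * Real.exp (-(β q) * t)) ^ 2 = _
      rw [mul_pow, Real.sq_sqrt (hβ q).le, ← Real.exp_nat_mul]
      congr 2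
      push_cast
      ring
    have hfg : ∀ p q, f p * g q = Real.sqrt (α p * β q) * Real.exp (-(α p + β q) * t) := by
      intro p q
      show (Real.sqrt (α p) * Real.exp (-(α p) * t)) * (Real.sqrt (β q) * Real.exp (-(β q) * t)) = _
      rw [Real.sqrt_mul (hα p).le, show -(α p + β q) * t = -(α p) * t + -(β q) * t by ring,
        Real.exp_add]
      ring
    have hy : ∀ q, ‖y q‖ ^ 2 = g q ^ 2 * ‖η q‖ ^ 2 := by
      intro q
      show ‖(g q : ℂ) * η q‖ ^ 2 = _
      rw [norm_mul, mul_pow, Complex.norm_real, Real.norm_eq_abs, sq_abs]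
    have h2 : ∀ i p, ∑ q, (Real.sqrt (α p * β q) * r i p q) * Real.exp (-(α p + β q) * t) ≤
        (α p * ‖z i p‖ ^ 2) * Real.exp (-(2 * α p) * t) + ‖((W i).mulVec y) p‖ ^ 2 / 4 := by
      intro i p
      have h3 := re_mul_le ((f p : ℂ) * z i p) (((W i).mulVec y) p)
      have h4 : ‖(f p : ℂ) * z i p‖ ^ 2 = (α p * ‖z i p‖ ^ 2) * Real.exp (-(2 * α p) * t) := by
        rw [norm_mul, mul_pow, Complex.norm_real, Real.norm_eq_abs, sq_abs, hf2]
        ring
      have h5 : (conj ((f p : ℂ) * z i p) * ((W i).mulVec y) p).re =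
          ∑ q, (Real.sqrt (α p * β q) * r i p q) * Real.exp (-(α p + β q) * t) := by
        simp only [Matrix.mulVec, dotProduct]
        rw [Finset.mul_sum, Complex.re_sum]
        refine Finset.sum_congr rfl fun q _ => ?_
        have e : conj ((f p : ℂ) * z i p) * (W i p q * y q) =
            ((f p * g q : ℝ) : ℂ) * (conj (z i p) * (W i p q * η q)) := by
          show conj ((f p : ℂ) * z i p) * (W i p q * ((g q : ℂ) * η q)) = _
          rw [map_mul, Complex.conj_ofReal]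
          push_cast
          ring
        rw [e, Complex.re_ofReal_mul, hfg]
        ring
      rw [h4, h5] at h3
      exact h3
    have h6 : ∑ i, ∑ p, ∑ q, (Real.sqrt (α p * β q) * r i p q) * Real.exp (-(α p + β q) * t) ≤
        ∑ i, ∑ p, ((α p * ‖z i p‖ ^ 2) * Real.exp (-(2 * α p) * t) +
          ‖((W i).mulVec y) p‖ ^ 2 / 4) :=
      Finset.sum_le_sum fun i _ => Finset.sum_le_sum fun p _ => h2 i p
    refine h6.trans ?_
    simp only [Finset.sum_add_distrib, ← Finset.sum_div]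
    have h7 : (∑ i, ∑ p, ‖((W i).mulVec y) p‖ ^ 2) / 4 ≤
        ∑ q, (c / 4 * (β q * ‖η q‖ ^ 2)) * Real.exp (-(2 * β q) * t) := by
      have h8 : ∑ q, (c / 4 * (β q * ‖η q‖ ^ 2)) * Real.exp (-(2 * β q) * t) =
          c * (∑ q, ‖y q‖ ^ 2) / 4 := by
        rw [Finset.mul_sum, Finset.sum_div]
        refine Finset.sum_congr rfl fun q _ => ?_
        rw [hy, hg2]
        ring
      rw [h8]
      linarith
    linarith
  -- integrate
  let κ := (ι × Fin d) ⊕ (Fin d ⊕ (ι × Fin d × Fin d))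
  let cc : κ → ℝ := Sum.elim (fun x => α x.2 * ‖z x.1 x.2‖ ^ 2)
    (Sum.elim (fun q => c / 4 * (β q * ‖η q‖ ^ 2))
      (fun x => -(Real.sqrt (α x.2.1 * β x.2.2) * r x.1 x.2.1 x.2.2)))
  let ll : κ → ℝ := Sum.elim (fun x => 2 * α x.2)
    (Sum.elim (fun q => 2 * β q) (fun x => α x.2.1 + β x.2.2))
  have hll : ∀ k, 0 < ll k := by
    rintro (x | q | x)
    · show 0 < 2 * α x.2
      linarith [hα x.2]
    · show 0 < 2 * β q
      linarith [hβ q]
    · show 0 < α x.2.1 + β x.2.2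
      linarith [hα x.2.1, hβ x.2.2]
  have hfin := pos_exp_sum cc ll hll (by
    intro t ht
    have h1 := hpt t ht
    simp only [κ, cc, ll, Fintype.sum_sum_type, Sum.elim_inl, Sum.elim_inr, Fintype.sum_prod_type,
      neg_mul, Finset.sum_neg_distrib] at h1 ⊢
    linarith)
  simp only [κ, cc, ll, Fintype.sum_sum_type, Sum.elim_inl, Sum.elim_inr, Fintype.sum_prod_type,
    neg_div, Finset.sum_neg_distrib] at hfin
  have e1 : ∑ i, ∑ p, α p * ‖z i p‖ ^ 2 / (2 * α p) = (∑ i, ∑ p, ‖z i p‖ ^ 2) / 2 := by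
    simp only [Finset.sum_div]
    refine Finset.sum_congr rfl fun i _ => Finset.sum_congr rfl fun p _ => ?_
    have := (hα p).ne'
    field_simp
  have e2 : ∑ q, c / 4 * (β q * ‖η q‖ ^ 2) / (2 * β q) = c / 4 * (∑ q, ‖η q‖ ^ 2) / 2 := by
    rw [Finset.mul_sum, Finset.sum_div]
    refine Finset.sum_congr rfl fun q _ => ?_
    have := (hβ q).ne'
    field_simp
  have e3 : ∑ i, ∑ p, ∑ q, Real.sqrt (α p * β q) * r i p q / (α p + β q) =
      ∑ i, ∑ p, ‖z i p‖ ^ 2 := by
    rw [hN]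
    refine Finset.sum_congr rfl fun i _ => Finset.sum_congr rfl fun p _ =>
      Finset.sum_congr rfl fun q _ => ?_
    simp only [hm]
    ring
  rw [e1, e2, e3] at hfin
  linarith

end Pool.Agent.H966R4.BP
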